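import Pool.Agent.Helper92.BO.GoalsA

/-!
# Project BO, packet MON
-/

set_option autoImplicit false

namespace Pool.Agent.Helper30.BO

open MeasureTheory Filter Topology Function
open Pool.Agent.Helper92.BO

theorem psiR_nn {l : ℝ} (hl : 0 < l) (x : ℝ) : 0 ≤ psiR l x := by
  unfold psiR
  split_ifs
  · exact zero_le_one
  · exact hl.le

theorem in01_cut {G : SimpleGraph ℕ} {v : ℕ} {L : List ℕ} {b : ℕ → ℝ} (hb : In01 L b) {c : ℝ}
    (h0 : 0 ≤ c) : In01 L (cut G v c b) := by
  intro u hu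
  have h := hb u hu
  unfold cut
  split_ifs
  · exact ⟨le_min h.1 h0, (min_le_left _ _).trans h.2⟩
  · exact h

theorem cut_mono {G : SimpleGraph ℕ} {v : ℕ} {L : List ℕ} {b b' : ℕ → ℝ}
    (hb : ∀ u ∈ L, b u ≤ b' u) (c : ℝ) : ∀ u ∈ L, cut G v c b u ≤ cut G v c b' u := by
  intro u hu
  unfold cut
  split_ifs
  · exact min_le_min_right _ (hb u hu)
  · exact hb u hu

theorem mon (hC : CntStmt) (hP : PosStmt) : MonStmt := by
  intro G l L
  induction L with
  | nil => intro b b' _ _ _ _ _; exact le_rfl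
  | cons v L ih =>
    intro b b' hl hl1 hb hb' hle
    have hbL : In01 L b := fun u hu => hb u (List.mem_cons_of_mem _ hu)
    have hbL' : In01 L b' := fun u hu => hb' u (List.mem_cons_of_mem _ hu)
    have hleL : ∀ u ∈ L, b u ≤ b' u := fun u hu => hle u (List.mem_cons_of_mem _ hu)
    have hv := hb v List.mem_cons_self
    have hv' := hb' v List.mem_cons_self
    have hvv := hle v List.mem_cons_self
    have i1 := (hC G 0 l L v b hbL).2.2.2
    have i2 := (hC G 0 l L v b' hbL').2.2.2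
    have sub : ∀ {p q : ℝ}, 0 ≤ p → q ≤ 1 → p ≤ q → Set.uIcc p q ⊆ Set.uIcc (0 : ℝ) 1 := by
      intro p q hp hq hpq
      rw [Set.uIcc_of_le hpq, Set.uIcc_of_le zero_le_one]
      exact Set.Icc_subset_Icc hp hq
    have j1 := i1.mono_set (sub le_rfl hv.2 hv.1)
    have j2 := i2.mono_set (sub le_rfl hv.2 hv.1)
    have j3 := i2.mono_set (sub hv.1 hv'.2 hvv)
    show ∫ x in (0 : ℝ)..(b v), psiR l x * ZR G l L (cut G v (1 - x) b) ≤
      ∫ x in (0 : ℝ)..(b' v), psiR l x * ZR G l L (cut G v (1 - x) b')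
    rw [← intervalIntegral.integral_add_adjacent_intervals j2 j3]
    have k1 : ∫ x in (0 : ℝ)..(b v), psiR l x * ZR G l L (cut G v (1 - x) b) ≤
        ∫ x in (0 : ℝ)..(b v), psiR l x * ZR G l L (cut G v (1 - x) b') := by
      refine intervalIntegral.integral_mono_on hv.1 j1 j2 fun x hx => ?_
      have hx1 : 0 ≤ 1 - x := by linarith [hx.2, hv.2]
      exact mul_le_mul_of_nonneg_left (ih _ _ hl hl1 (in01_cut hbL hx1) (in01_cut hbL' hx1)
        (cut_mono hleL _)) (psiR_nn hl x)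
    have k2 : 0 ≤ ∫ x in (b v)..(b' v), psiR l x * ZR G l L (cut G v (1 - x) b') := by
      refine intervalIntegral.integral_nonneg hvv fun x hx => ?_
      have hx1 : 0 ≤ 1 - x := by linarith [hx.2, hv'.2]
      exact mul_nonneg (psiR_nn hl x) ((hP G l L _ hl hl1).1 (in01_cut hbL' hx1)).1
    linarith

end Pool.Agent.Helper30.BO
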