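import Pool.Agent.Helper92.BO.GoalsC

/-!
# Project BO, packet SMX
-/

set_option autoImplicit false

namespace Pool.Agent.Helper30.BO

open MeasureTheory Finset
open Pool.Agent.Helper92.BO

theorem smx (hScl : SclStmt) : SmxStmt := by
  intro n S K i hiK hS hup hsc
  classical
  set e := MeasurableEquiv.piFinSuccAbove (fun _ : Fin (n + 1) => ℝ) i with he
  have hmp : MeasurePreserving e.symm (volume : Measure (ℝ × (Fin n → ℝ))) volume :=
    (volume_preserving_piFinSuccAbove (fun _ : Fin (n + 1) => ℝ) i).symm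
  have e0 : ∀ u V, e.symm (u, V) = i.insertNth u V := fun u V => rfl
  have e1 : ∀ u V, e.symm (u, V) i = u := by
    intro u V; rw [e0]; simp
  have e2 : ∀ u V j, e.symm (u, V) (i.succAbove j) = V j := by
    intro u V j; rw [e0]; simp
  set S' : Set (Fin n → ℝ) := {V | e.symm (0, V) ∈ S} with hSdef
  have hS' : MeasurableSet S' := (e.symm.measurable.comp measurable_prodMk_left) hS
  have hsec : ∀ u V, e.symm (u, V) ∈ S ↔ V ∈ S' := by
    intro u V
    have h1 : e.symm (u, V) = Function.update (e.symm (0, V)) i u := by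
      funext j
      rcases Fin.eq_self_or_eq_succAbove i j with h | ⟨k, h⟩
      · rw [h, e1, Function.update_self]
      · rw [h, e2, Function.update_of_ne (Fin.succAbove_ne i k), e2]
    rw [h1]
    exact (hup _ _).symm
  set K' : Finset (Fin n) := univ.filter fun j => i.succAbove j ∈ K with hKdef
  have hmemK : ∀ j, j ∈ K' ↔ i.succAbove j ∈ K := by
    intro j; simp [hKdef]
  have hKmap : K = K'.map (Fin.succAboveEmb i) := by
    ext j
    rw [Finset.mem_map]
    constructor
    · intro hj
      rcases Fin.eq_self_or_eq_succAbove i j with h | ⟨k, h⟩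
      · exact absurd (h ▸ hj) hiK
      · exact ⟨k, (hmemK k).2 (h ▸ hj), h.symm⟩
    · rintro ⟨k, hk, rfl⟩
      exact (hmemK k).1 hk
  have hcard : K'.card = K.card := by
    rw [hKmap, Finset.card_map]
  have hscale : ∀ (V : Fin n → ℝ) (c : ℝ), 0 < c →
      (V ∈ S' ↔ (fun j => if j ∈ K' then c * V j else V j) ∈ S') := by
    intro V c hc
    have h1 := hsc (e.symm (0, V)) c hc
    have h2 : (fun j => if j ∈ K then c * e.symm (0, V) j else e.symm (0, V) j) =
        e.symm (0, fun j => if j ∈ K' then c * V j else V j) := by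
      funext j
      rcases Fin.eq_self_or_eq_succAbove i j with h | ⟨k, h⟩
      · rw [h, if_neg hiK, e1, e1]
      · rw [h, e2, e2]
        simp only [hmemK]
    rw [h2] at h1
    exact h1
  have hmain := hScl n S' K' hS' hscale
  -- measurability
  have hcube : MeasurableSet {U : Fin (n + 1) → ℝ | ∀ i, 0 ≤ U i ∧ U i ≤ 1} := by
    have : {U : Fin (n + 1) → ℝ | ∀ i, 0 ≤ U i ∧ U i ≤ 1} =
        ⋂ i, {U | 0 ≤ U i} ∩ {U | U i ≤ 1} := by
      ext U; simp
    rw [this]
    exact MeasurableSet.iInter fun i => (measurableSet_le measurable_const (measurable_pi_apply i)).inter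
      (measurableSet_le (measurable_pi_apply i) measurable_const)
  have hle : MeasurableSet {U : Fin (n + 1) → ℝ | ∀ j ∈ K, U j ≤ U i} := by
    have : {U : Fin (n + 1) → ℝ | ∀ j ∈ K, U j ≤ U i} = ⋂ j ∈ K, {U | U j ≤ U i} := by
      ext U; simp
    rw [this]
    exact Finset.measurableSet_biInter _ fun j _ =>
      measurableSet_le (measurable_pi_apply j) (measurable_pi_apply i)
  set Q : Set (Fin n → ℝ) := {U | ∀ i, 0 ≤ U i ∧ U i ≤ 1} with hQ
  have hQfin : volume (S' ∩ Q) ≠ ⊤ := by
    refine ne_top_of_le_ne_top ?_ (measure_mono Set.inter_subset_right)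
    have hsub : Q ⊆ Set.Icc 0 1 := fun U hU => ⟨fun j => (hU j).1, fun j => (hU j).2⟩
    exact ne_top_of_le_ne_top (isCompact_Icc.measure_lt_top.ne) (measure_mono hsub)
  set c := volume (S' ∩ Q) with hc
  have hvol : ∀ B : Set (Fin (n + 1) → ℝ), MeasurableSet B →
      volume B = ∫⁻ u : ℝ, volume {V : Fin n → ℝ | e.symm (u, V) ∈ B} := by
    intro B hB
    rw [← hmp.measure_preimage hB.nullMeasurableSet, Measure.volume_eq_prod,
      Measure.prod_apply (e.symm.measurable hB)]
    rfl
  -- the cube
  have hc1 : volume (S ∩ {U | ∀ i, 0 ≤ U i ∧ U i ≤ 1}) = c := by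
    rw [hvol _ (hS.inter hcube)]
    have h1 : ∀ u : ℝ, volume {V : Fin n → ℝ | e.symm (u, V) ∈
        S ∩ {U | ∀ i, 0 ≤ U i ∧ U i ≤ 1}} = (Set.Icc (0 : ℝ) 1).indicator (fun _ => c) u := by
      intro u
      by_cases hu : u ∈ Set.Icc (0 : ℝ) 1
      · rw [Set.indicator_of_mem hu, hc]
        congr 1
        ext V
        simp only [Set.mem_ofPred_eq, Set.mem_inter_iff, hsec, hQ]
        refine and_congr_right fun _ => ?_
        constructor
        · intro h j
          have := h (i.succAbove j)
          rwa [e2] at this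
        · intro h j
          rcases Fin.eq_self_or_eq_succAbove i j with h' | ⟨k, h'⟩
          · rw [h', e1]; exact hu
          · rw [h', e2]; exact h k
      · rw [Set.indicator_of_notMem hu]
        have : {V : Fin n → ℝ | e.symm (u, V) ∈ S ∩ {U | ∀ i, 0 ≤ U i ∧ U i ≤ 1}} = ∅ := by
          rw [Set.eq_empty_iff_forall_notMem]
          rintro V ⟨-, h⟩
          have := h i
          rw [e1] at this
          exact hu this
        rw [this, measure_empty]
    simp_rw [h1]
    rw [lintegral_indicator measurableSet_Icc, setLIntegral_const, Real.volume_Icc]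
    simp
  have hc2 : volume (S ∩ {U | (∀ i, 0 ≤ U i ∧ U i ≤ 1) ∧ ∀ j ∈ K, U j ≤ U i}) =
      c * ENNReal.ofReal (1 / (K.card + 1)) := by
    have hcl : MeasurableSet {U : Fin (n + 1) → ℝ | (∀ i, 0 ≤ U i ∧ U i ≤ 1) ∧
        ∀ j ∈ K, U j ≤ U i} := hcube.inter hle
    rw [hvol _ (hS.inter hcl)]
    have h1 : ∀ u : ℝ, u ≠ 0 → volume {V : Fin n → ℝ | e.symm (u, V) ∈
        S ∩ {U | (∀ i, 0 ≤ U i ∧ U i ≤ 1) ∧ ∀ j ∈ K, U j ≤ U i}} =
        (Set.Ioc (0 : ℝ) 1).indicator (fun u => c * ENNReal.ofReal (u ^ K.card)) u := by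
      intro u hu0
      by_cases hu : u ∈ Set.Ioc (0 : ℝ) 1
      · rw [Set.indicator_of_mem hu]
        have h2 : {V : Fin n → ℝ | e.symm (u, V) ∈
            S ∩ {U | (∀ i, 0 ≤ U i ∧ U i ≤ 1) ∧ ∀ j ∈ K, U j ≤ U i}} =
            S' ∩ {U | (∀ i, 0 ≤ U i ∧ U i ≤ 1) ∧ ∀ j ∈ K', U j ≤ u} := by
          ext V
          simp only [Set.mem_ofPred_eq, Set.mem_inter_iff, hsec]
          refine and_congr_right fun _ => and_congr ?_ ?_
          · constructor
            · intro h j
              have := h (i.succAbove j)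
              rwa [e2] at this
            · intro h j
              rcases Fin.eq_self_or_eq_succAbove i j with h' | ⟨k, h'⟩
              · rw [h', e1]; exact ⟨hu.1.le, hu.2⟩
              · rw [h', e2]; exact h k
          · constructor
            · intro h j hj
              have := h (i.succAbove j) ((hmemK j).1 hj)
              rwa [e2, e1] at this
            · intro h j hj
              rcases Fin.eq_self_or_eq_succAbove i j with h' | ⟨k, h'⟩
              · exact absurd (h' ▸ hj) hiK
              · rw [h', e2, e1]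
                exact h k ((hmemK k).2 (h' ▸ hj))
        rw [h2]
        have h3 := hmain u hu.1 hu.2
        rw [hcard] at h3
        have h4 : volume (S' ∩ {U | (∀ i, 0 ≤ U i ∧ U i ≤ 1) ∧ ∀ j ∈ K', U j ≤ u}) ≠ ⊤ := by
          refine ne_top_of_le_ne_top hQfin (measure_mono ?_)
          exact Set.inter_subset_inter_right _ fun U hU => hU.1
        rw [← ENNReal.ofReal_toReal h4, h3, ENNReal.ofReal_mul (by have := hu.1.le; positivity),
          ENNReal.ofReal_toReal hQfin, mul_comm]
      · rw [Set.indicator_of_notMem hu]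
        have : {V : Fin n → ℝ | e.symm (u, V) ∈
            S ∩ {U | (∀ i, 0 ≤ U i ∧ U i ≤ 1) ∧ ∀ j ∈ K, U j ≤ U i}} = ∅ := by
          rw [Set.eq_empty_iff_forall_notMem]
          rintro V ⟨-, h, -⟩
          have := h i
          rw [e1] at this
          exact hu ⟨lt_of_le_of_ne this.1 (Ne.symm hu0), this.2⟩
        rw [this, measure_empty]
    have h5 : ∀ᵐ u : ℝ, volume {V : Fin n → ℝ | e.symm (u, V) ∈
        S ∩ {U | (∀ i, 0 ≤ U i ∧ U i ≤ 1) ∧ ∀ j ∈ K, U j ≤ U i}} =
        (Set.Ioc (0 : ℝ) 1).indicator (fun u => c * ENNReal.ofReal (u ^ K.card)) u := by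
      have : ∀ᵐ u : ℝ, u ≠ 0 := by
        rw [ae_iff]
        simp
      filter_upwards [this] with u hu
      exact h1 u hu
    rw [lintegral_congr_ae h5, lintegral_indicator measurableSet_Ioc,
      lintegral_const_mul' _ _ hQfin]
    congr 1
    rw [← ofReal_integral_eq_lintegral_ofReal]
    · congr 1
      rw [← intervalIntegral.integral_of_le zero_le_one, integral_pow]
      simp
    · exact (intervalIntegrable_iff_integrableOn_Ioc_of_le zero_le_one).1
        ((continuous_pow _).intervalIntegrable _ _)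
    · filter_upwards [ae_restrict_mem measurableSet_Ioc] with u hu
      have := hu.1.le
      positivity
  have hk0 : (0 : ℝ) < (K.card : ℝ) + 1 := by exact_mod_cast Nat.succ_pos _
  rw [hc1, hc2, ENNReal.toReal_mul, ENNReal.toReal_ofReal (div_nonneg zero_le_one hk0.le),
    mul_assoc, one_div, inv_mul_cancel₀ hk0.ne', mul_one]

end Pool.Agent.Helper30.BO
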