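import Pool.Agent.Helper92.BO.GoalsG

/-!
# Project BO, packet TMM
-/

set_option autoImplicit false

namespace Pool.Agent.Helper30.BO

open MeasureTheory Filter Topology Function
open Pool.Agent.Helper92.BO

theorem meas_list_sum {β : Type} [MeasurableSpace β] (F : ℕ → β → ℝ) (hF : ∀ u, Measurable (F u))
    (M : List ℕ) : Measurable fun p => (M.map fun u => F u p).sum := by
  induction M with
  | nil => simp
  | cons u M ih =>
    simp only [List.map_cons, List.sum_cons]
    exact (hF u).add ih

theorem meas_psiR (l : ℝ) : Measurable (psiR l) := by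
  unfold psiR
  exact Measurable.ite (measurableSet_le measurable_id measurable_const) measurable_const
    measurable_const

theorem meas_cut {β : Type} [MeasurableSpace β] (G : SimpleGraph ℕ) (v : ℕ) {c : β → ℝ}
    {b : β → ℕ → ℝ} (hc : Measurable c) (hb : Measurable b) :
    Measurable fun p => cut G v (c p) (b p) := by
  refine measurable_pi_lambda _ fun u => ?_
  unfold cut
  have hbu : Measurable fun p => b p u := (measurable_pi_apply u).comp hb
  by_cases h : G.Adj v u
  · simp only [h, if_true]
    exact hbu.min hc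
  · simp only [h, if_false]
    exact hbu

theorem meas_Zd (hZ : ZrmStmt) (G : SimpleGraph ℕ) (l : ℝ) (L : List ℕ) (u : ℕ) :
    Measurable fun b : ℕ → ℝ => Zd G l L u b := by
  unfold Zd
  refine ((meas_psiR l).comp (measurable_pi_apply u)).mul ?_
  exact (hZ G l (L.erase u)).comp (meas_cut G u ((measurable_pi_apply u).const_sub 1) measurable_id)

theorem meas_Ph (hZ : ZrmStmt) (G : SimpleGraph ℕ) (l : ℝ) (L : List ℕ) (u : ℕ) :
    Measurable fun b : ℕ → ℝ => Ph G l L u b := by
  unfold Ph
  exact (((measurable_pi_apply u).mul ((measurable_pi_apply u).const_sub 1)).mul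
    (meas_Zd hZ G l L u)).div (hZ G l L)

theorem meas_and_lt (Q : Prop) {f g : ℝ → ℝ} (hf : Measurable f) (hg : Measurable g) :
    MeasurableSet {s : ℝ | Q ∧ f s < g s} := by
  by_cases h : Q
  · simp only [h, true_and]
    exact measurableSet_lt hf hg
  · simp [h]

theorem tmm (hZ : ZrmStmt) : TmmStmt := by
  intro G l L v b
  have hcut : Measurable fun s : ℝ => cut G v (1 - s) b :=
    meas_cut G v (measurable_id.const_sub 1) measurable_const
  have hPs : ∀ u, Measurable fun s : ℝ => Ph G l L u (cut G v (1 - s) b) := fun u =>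
    (meas_Ph hZ G l L u).comp hcut
  have hZs : ∀ u, Measurable fun s : ℝ => Zd G l L u (cut G v (1 - s) b) := fun u =>
    (meas_Zd hZ G l L u).comp hcut
  have hcu : ∀ u, Measurable fun s : ℝ => cut G v (1 - s) b u := fun u =>
    (measurable_pi_apply u).comp hcut
  refine ⟨?_, ?_, ?_, hZs⟩
  · unfold Tm
    refine meas_list_sum (β := ℝ × ℝ) (fun u p =>
      if cut G v (1 - p.2) b u < cut G v (1 - p.1) b u then
        Ph G l L u (cut G v (1 - p.2) b) - Ph G l L u (cut G v (1 - p.1) b)
      else -|Ph G l L u (cut G v (1 - p.2) b) - Ph G l L u (cut G v (1 - p.1) b)|) (fun u => ?_) L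
    have h1 : Measurable fun p : ℝ × ℝ => Ph G l L u (cut G v (1 - p.1) b) :=
      (hPs u).comp measurable_fst
    have h2 : Measurable fun p : ℝ × ℝ => Ph G l L u (cut G v (1 - p.2) b) :=
      (hPs u).comp measurable_snd
    exact Measurable.ite (measurableSet_lt ((hcu u).comp measurable_snd)
      ((hcu u).comp measurable_fst)) (h2.sub h1) (h2.sub h1).abs.neg
  · unfold Gc
    refine meas_list_sum (β := ℝ) _ (fun u => ?_) L
    exact Measurable.ite (meas_and_lt (G.Adj v u) (measurable_id.const_sub 1) measurable_const)
      (hZs u) measurable_const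
  · unfold Fc
    refine meas_list_sum (β := ℝ) _ (fun u => ?_) L
    exact Measurable.ite (meas_and_lt (G.Adj v u) (measurable_id.const_sub 1) measurable_const)
      (hPs u) measurable_const

end Pool.Agent.Helper30.BO
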